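import Pool.Agent.E8helper38.CTV.Tri

/-!
# Project CTV, TORV: the torsion over `K` for `y² + 3 ω D y = x³`
-/

set_option autoImplicit false

open scoped Classical

namespace Pool.Agent.E8helper87.CTV

open NumberField WeierstrassCurve
open Pool.Agent.Y692.QS (Ei w nr toC)
open Pool.Agent.Y703.CT

/-- **TORV**: the torsion over `K` -/
theorem t_TORV : Pool.Agent.E8helper20.CTV.S_TORV := by
  intro K _ _ j J _ _ π e hD
  have hne := Pool.Agent.E8helper38.CTV.w_ne hD
  obtain ⟨e', i₀, hi, u, a, Ψ, g, hdata⟩ := Pool.Agent.Y737.CTK.trf K j _ hne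
  exact Pool.Agent.Y405.CTK.t_TORK K j _ hne e' i₀ hi u a Ψ g hdata
    (Pool.Agent.E8helper38.CTV.a_neW hD hdata.1)

end Pool.Agent.E8helper87.CTV
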